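import Mathlib

set_option autoImplicit false

namespace Pool.Agent.Results.MP_72f8f6_ag.Counter
open MvPolynomial

/-- the map `T = R[y_1, …, y_m] → R[t]`, `y_j ↦ f_j t` -/
noncomputable def reesMap {R : Type*} [CommRing R] {m : ℕ} (g : Fin m → R) :
    MvPolynomial (Fin m) R →ₐ[R] Polynomial R :=
  aeval fun j => Polynomial.C (g j) * Polynomial.X

/-- the ideal `L` of `T` generated by the linear relations -/
noncomputable def linRel {R : Type*} [CommRing R] {m : ℕ} (g : Fin m → R) : Ideal (MvPolynomial (Fin m) R) :=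
  Ideal.span {F | ∃ a : Fin m → R, ∑ i, a i * g i = 0 ∧ F = ∑ i, C (a i) * X i}

/-- the conductor `L :_R J` of the ideal generated by `g` -/
noncomputable def conductor {R : Type*} [CommRing R] {m : ℕ} (g : Fin m → R) : Ideal R where
  carrier := {r | ∀ F, reesMap g F = 0 → C r * F ∈ linRel g}
  add_mem' := fun {a b} ha hb F hF => by
    rw [map_add, add_mul]; exact add_mem (ha F hF) (hb F hF)
  zero_mem' := fun F _ => by simp
  smul_mem' := fun c r hr F hF => by
    rw [smul_eq_mul, map_mul, mul_assoc]; exact Ideal.mul_mem_left _ _ (hr F hF)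

section general
variable {R : Type*} [CommRing R] {a f s : R}

lemma rel1 (c : R) (h : a * c = 0) : C c * X 0 ∈ linRel ![a, f] :=
  Ideal.subset_span ⟨![c, 0], by simpa [mul_comm] using h, by simp⟩

lemma rel2 : C a * X 1 - C f * X 0 ∈ linRel ![a, f] :=
  Ideal.subset_span ⟨![-f, a], by simp [mul_comm], by simp; ring⟩

lemma ann (H2 : ∀ (n : R) (i : ℕ), a ^ i * n = 0 → ∃ n', s * n = f * n' ∧ a ^ 2 * n' = 0)
    (i : ℕ) (n : R) (h : a ^ i * n = 0) : C s * (C n * X 0 ^ i) ∈ linRel ![a, f] := by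
  match i, h with
  | 0, h => simp [show n = 0 by simpa using h]
  | 1, h => exact Ideal.mul_mem_left _ _ (by simpa using rel1 n (by simpa using h))
  | i + 2, h =>
    obtain ⟨n', h1, h2⟩ := H2 n _ h
    have h3 := rel1 (a := a) (f := f) (a * n') (by rw [← h2]; ring)
    convert sub_mem (Ideal.mul_mem_left _ (X 0 ^ i * X 1) h3)
      (Ideal.mul_mem_left _ (C n' * X 0 ^ (i + 1)) rel2) using 1
    rw [← mul_assoc, ← map_mul, h1, map_mul, map_mul]; ring

lemma layer (H1 : ∀ (j : ℕ) (x : R), a ^ j ∣ f * x → a ^ j ∣ x)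
    (H2 : ∀ (n : R) (i : ℕ), a ^ i * n = 0 → ∃ n', s * n = f * n' ∧ a ^ 2 * n' = 0) (m : ℕ) :
    ∀ (i : ℕ) (c : ℕ → R), ∑ l ∈ Finset.range (m + 1), c l * a ^ (i + l) * f ^ (m - l) = 0 →
      C s * ∑ l ∈ Finset.range (m + 1), C (c l) * X 0 ^ (i + l) * X 1 ^ (m - l) ∈ linRel ![a, f] := by
  have H1' : ∀ (k j : ℕ) (x : R), a ^ j ∣ f ^ k * x → a ^ j ∣ x := by
    intro k
    induction k with
    | zero => intro j x h; simpa using h
    | succ k ih => intro j x h; exact ih j x (H1 j _ (by rw [← mul_assoc, ← pow_succ']; exact h))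
  induction m with
  | zero =>
    intro i c h
    simpa using ann H2 i (c 0) (by simpa [mul_comm] using h)
  | succ m ih =>
    intro i c h
    rw [Finset.sum_range_succ'] at h ⊢
    simp only [Nat.add_sub_add_right, add_zero, Nat.sub_zero] at h ⊢
    have h1 : a ^ (i + 1) ∣ f ^ (m + 1) * (c 0 * a ^ i) := by
      have : f ^ (m + 1) * (c 0 * a ^ i) =
          -∑ l ∈ Finset.range (m + 1), c (l + 1) * a ^ (i + (l + 1)) * f ^ (m - l) := by
        linear_combination h
      rw [this, dvd_neg]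
      exact Finset.dvd_sum fun l _ => Dvd.dvd.mul_right (Dvd.dvd.mul_left (pow_dvd_pow _ (by omega)) _) _
    obtain ⟨c', hc'⟩ := H1' _ _ _ h1
    have h2 := ann H2 i (c 0 - a * c') (by linear_combination hc')
    have h3 := ih (i + 1) (fun l => c (l + 1) + if l = 0 then f * c' else 0) (by
      simp only [add_mul, Finset.sum_add_distrib, ite_mul, zero_mul, Finset.sum_ite_eq',
        Finset.mem_range, Nat.zero_lt_succ, if_true, add_zero, Nat.sub_zero]
      simp only [show ∀ l, i + 1 + l = i + (l + 1) from fun l => by omega]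
      linear_combination h - f ^ (m + 1) * hc')
    simp only [map_add, add_mul, Finset.sum_add_distrib, apply_ite C, ite_mul, map_zero, zero_mul,
      Finset.sum_ite_eq', Finset.mem_range, Nat.zero_lt_succ, if_true, add_zero, Nat.sub_zero,
      show ∀ l, i + 1 + l = i + (l + 1) from fun l => by omega] at h3
    convert add_mem (add_mem h3 (Ideal.mul_mem_left _ (X 1 ^ (m + 1)) h2))
      (Ideal.mul_mem_left _ (C s * C c' * X 0 ^ i * X 1 ^ m) rel2) using 1
    simp only [map_sub, map_mul]; ring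

noncomputable def ex (l k : ℕ) : Fin 2 →₀ ℕ := Finsupp.single 0 l + Finsupp.single 1 (k - l)

lemma ex_eq (d : Fin 2 →₀ ℕ) (l k : ℕ) (hl : l ∈ Finset.range (k + 1)) :
    d = ex l k ↔ l = d 0 ∧ k = d 0 + d 1 := by
  have := Finset.mem_range.1 hl
  constructor
  · rintro rfl; simp [ex]; omega
  · rintro ⟨rfl, rfl⟩; ext i; fin_cases i <;> simp [ex]

lemma mono_eq (d : Fin 2 →₀ ℕ) (c : R) : monomial d c = C c * X 0 ^ d 0 * X 1 ^ d 1 := by
  rw [monomial_eq, Finsupp.prod_fintype _ _ (by simp)]; simp [mul_assoc]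

lemma layer_mono {A : Type*} [AddCommMonoid A] (d : Fin 2 →₀ ℕ) (c : R) (k : ℕ) (g : R → ℕ → A)
    (hg : ∀ l, g 0 l = 0) :
    ∑ l ∈ Finset.range (k + 1), g (coeff (ex l k) (monomial d c)) l =
      if k = d 0 + d 1 then g c (d 0) else 0 := by
  rw [Finset.sum_congr rfl (g := fun l => if l = d 0 ∧ k = d 0 + d 1 then g c l else 0)]
  · by_cases h : k = d 0 + d 1
    · simp [h, Nat.lt_succ_iff]
    · simp [h]
  · intro l hl
    rw [coeff_monomial]
    by_cases h : d = ex l k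
    · rw [if_pos h, if_pos ((ex_eq d l k hl).1 h)]
    · rw [if_neg h, if_neg (mt (ex_eq d l k hl).2 h), hg]

theorem mem_cond (H1 : ∀ (j : ℕ) (x : R), a ^ j ∣ f * x → a ^ j ∣ x)
    (H2 : ∀ (n : R) (i : ℕ), a ^ i * n = 0 → ∃ n', s * n = f * n' ∧ a ^ 2 * n' = 0) :
    s ∈ conductor ![a, f] := by
  intro F hF
  have h1 : ∀ (G : MvPolynomial (Fin 2) R) k, (reesMap ![a, f] G).coeff k =
      ∑ l ∈ Finset.range (k + 1), coeff (ex l k) G * a ^ (0 + l) * f ^ (k - l) := by
    intro G k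
    induction G using MvPolynomial.induction_on' with
    | monomial d c =>
      rw [layer_mono d c k (fun x l => x * a ^ (0 + l) * f ^ (k - l)) (by simp), mono_eq]
      have : reesMap ![a, f] (C c * X 0 ^ d 0 * X 1 ^ d 1) =
          Polynomial.C (c * a ^ d 0 * f ^ d 1) * Polynomial.X ^ (d 0 + d 1) := by
        simp [reesMap]; ring
      rw [this, Polynomial.coeff_C_mul_X_pow]
      split_ifs with h
      · simp [h]
      · rfl
    | add p q hp hq => simp [hp, hq, add_mul, Finset.sum_add_distrib]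
  have h2 : ∀ G : MvPolynomial (Fin 2) R, ∃ N, ∀ N' ≥ N, G = ∑ k ∈ Finset.range N',
      ∑ l ∈ Finset.range (k + 1), C (coeff (ex l k) G) * X 0 ^ (0 + l) * X 1 ^ (k - l) := by
    intro G
    induction G using MvPolynomial.induction_on' with
    | monomial d c =>
      refine ⟨d 0 + d 1 + 1, fun N' hN => ?_⟩
      rw [Finset.sum_congr rfl fun k _ => layer_mono d c k
        (fun x l => (C x * X 0 ^ (0 + l) * X 1 ^ (k - l) : MvPolynomial (Fin 2) R)) (by simp)]
      rw [Finset.sum_eq_single (d 0 + d 1)]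
      · simp [mono_eq]
      · intro b _ hb; rw [if_neg hb]
      · intro h; exact absurd (Finset.mem_range.2 (by omega)) h
    | add p q hp hq =>
      obtain ⟨N, hN⟩ := hp
      obtain ⟨M, hM⟩ := hq
      refine ⟨max N M, fun N' h => ?_⟩
      conv_lhs => rw [hN N' (le_trans (le_max_left _ _) h), hM N' (le_trans (le_max_right _ _) h)]
      simp [add_mul, Finset.sum_add_distrib]
  obtain ⟨N, hN⟩ := h2 F
  rw [hN N le_rfl, Finset.mul_sum]
  refine sum_mem fun k _ => layer H1 H2 k 0 (fun l => coeff (ex l k) F) ?_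
  rw [← h1, hF]; simp

end general

/-- `ℤ[a] ⊕ ℤ s ⊕ ℤ s a ⊕ ℤ e ⊕ ℤ e a` with `s² = 2 e`, `s e = e² = a² s = a² e = 0` -/
@[ext] structure R0 where
  p : Polynomial ℤ
  u : ℤ
  v : ℤ
  w : ℤ
  z : ℤ

noncomputable instance : Add R0 := ⟨fun x y => ⟨x.p + y.p, x.u + y.u, x.v + y.v, x.w + y.w, x.z + y.z⟩⟩
noncomputable instance : Neg R0 := ⟨fun x => ⟨-x.p, -x.u, -x.v, -x.w, -x.z⟩⟩
noncomputable instance : Zero R0 := ⟨⟨0, 0, 0, 0, 0⟩⟩
noncomputable instance : One R0 := ⟨⟨1, 0, 0, 0, 0⟩⟩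
noncomputable instance : Mul R0 := ⟨fun x y => ⟨x.p * y.p, x.p.coeff 0 * y.u + y.p.coeff 0 * x.u,
  x.p.coeff 0 * y.v + y.p.coeff 0 * x.v + x.p.coeff 1 * y.u + y.p.coeff 1 * x.u,
  x.p.coeff 0 * y.w + y.p.coeff 0 * x.w + 2 * x.u * y.u,
  x.p.coeff 0 * y.z + y.p.coeff 0 * x.z + x.p.coeff 1 * y.w + y.p.coeff 1 * x.w +
    2 * (x.u * y.v + x.v * y.u)⟩⟩

lemma add_def (x y : R0) : x + y = ⟨x.p + y.p, x.u + y.u, x.v + y.v, x.w + y.w, x.z + y.z⟩ := rfl
lemma neg_def (x : R0) : -x = ⟨-x.p, -x.u, -x.v, -x.w, -x.z⟩ := rfl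
lemma zero_def : (0 : R0) = ⟨0, 0, 0, 0, 0⟩ := rfl
lemma one_def : (1 : R0) = ⟨1, 0, 0, 0, 0⟩ := rfl
lemma mul_def (x y : R0) : x * y = ⟨x.p * y.p, x.p.coeff 0 * y.u + y.p.coeff 0 * x.u,
  x.p.coeff 0 * y.v + y.p.coeff 0 * x.v + x.p.coeff 1 * y.u + y.p.coeff 1 * x.u,
  x.p.coeff 0 * y.w + y.p.coeff 0 * x.w + 2 * x.u * y.u,
  x.p.coeff 0 * y.z + y.p.coeff 0 * x.z + x.p.coeff 1 * y.w + y.p.coeff 1 * x.w +
    2 * (x.u * y.v + x.v * y.u)⟩ := rfl

noncomputable instance : CommRing R0 := CommRing.ofMinimalAxioms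
  (fun x y z => by simp only [add_def, add_assoc])
  (fun x => by simp only [add_def, zero_def, zero_add])
  (fun x => by simp only [add_def, neg_def, zero_def, neg_add_cancel])
  (fun x y z => by
    simp only [mul_def, Polynomial.mul_coeff_zero, Polynomial.mul_coeff_one, R0.mk.injEq]
    refine ⟨?_, ?_, ?_, ?_, ?_⟩ <;> ring)
  (fun x y => by
    simp only [mul_def, R0.mk.injEq]
    refine ⟨?_, ?_, ?_, ?_, ?_⟩ <;> ring)
  (fun x => by
    obtain ⟨p, u, v, w, z⟩ := x
    simp [mul_def, one_def, Polynomial.coeff_one])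
  (fun x y z => by
    simp only [mul_def, add_def, Polynomial.coeff_add, R0.mk.injEq]
    refine ⟨?_, ?_, ?_, ?_, ?_⟩ <;> ring)

noncomputable def iota : Polynomial ℤ →+* R0 where
  toFun p := ⟨p, 0, 0, 0, 0⟩
  map_one' := rfl
  map_zero' := rfl
  map_add' p q := by simp [add_def]
  map_mul' p q := by simp [mul_def]

lemma iota_def (p : Polynomial ℤ) : iota p = ⟨p, 0, 0, 0, 0⟩ := rfl

noncomputable def a0 : R0 := ⟨Polynomial.X, 0, 0, 0, 0⟩
noncomputable def s0 : R0 := ⟨0, 1, 0, 0, 0⟩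
noncomputable def e0 : R0 := ⟨0, 0, 0, 1, 0⟩

instance : IsNoetherianRing R0 := by
  refine isNoetherianRing_of_surjective (Polynomial (Polynomial (Polynomial ℤ))) R0
    (Polynomial.eval₂RingHom (Polynomial.eval₂RingHom iota s0) e0) fun x => ?_
  refine ⟨Polynomial.C (Polynomial.C x.p + Polynomial.C (Polynomial.C x.u + Polynomial.C x.v * Polynomial.X) *
    Polynomial.X) + Polynomial.C (Polynomial.C (Polynomial.C x.w + Polynomial.C x.z * Polynomial.X)) *
    Polynomial.X, ?_⟩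
  simp only [Polynomial.coe_eval₂RingHom, Polynomial.eval₂_add, Polynomial.eval₂_mul, Polynomial.eval₂_C,
    Polynomial.eval₂_X, iota_def, s0, e0, add_def, mul_def]
  ext <;> simp [Polynomial.coeff_X, Mathlib.Tactic.ComputeDegree.coeff_intCast_ite]

lemma a_pow (j : ℕ) : a0 ^ j = ⟨Polynomial.X ^ j, 0, 0, 0, 0⟩ := (map_pow iota Polynomial.X j).symm

lemma two_mul_def (x : R0) : 2 * x = ⟨2 * x.p, 2 * x.u, 2 * x.v, 2 * x.w, 2 * x.z⟩ := by
  simp only [two_mul, add_def]

lemma H1 (j : ℕ) (x : R0) (h : a0 ^ j ∣ 2 * x) : a0 ^ j ∣ x := by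
  obtain ⟨y, hy⟩ := h
  rw [two_mul_def, a_pow, mul_def, R0.mk.injEq] at hy
  obtain ⟨h1, h2, h3, h4, h5⟩ := hy
  obtain ⟨q, hq⟩ : Polynomial.X ^ j ∣ x.p := by
    have : Polynomial.X ^ j ∣ 2 * x.p := ⟨_, h1⟩
    rw [Polynomial.X_pow_dvd_iff] at this ⊢
    intro d hd
    have := this d hd
    rw [two_mul, Polynomial.coeff_add] at this
    omega
  match j, h2, h3, h4, h5, hq with
  | 0, _, _, _, _, _ => simp
  | 1, h2, h3, h4, h5, hq =>
    refine ⟨⟨q, x.v, 0, x.z, 0⟩, ?_⟩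
    simp at h2 h4
    rw [a_pow, mul_def]
    ext1 <;> simp [hq, h2, h4]
  | j + 2, h2, h3, h4, h5, hq =>
    refine ⟨⟨q, 0, 0, 0, 0⟩, ?_⟩
    simp [Polynomial.coeff_X_pow] at h2 h3 h4 h5
    rw [a_pow, mul_def]
    ext1 <;> simp [hq, h2, h3, h4, h5]

lemma H2 (n : R0) (i : ℕ) (h : a0 ^ i * n = 0) : ∃ n', s0 * n = 2 * n' ∧ a0 ^ 2 * n' = 0 := by
  have h1 : n.p = 0 := by
    have := congrArg R0.p h
    rw [a_pow, mul_def, zero_def] at this
    simpa using this
  refine ⟨⟨0, 0, 0, n.u, n.v⟩, ?_, ?_⟩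
  · rw [two_mul_def, mul_def]; simp [s0, h1]
  · rw [a_pow, mul_def, zero_def]; simp [Polynomial.coeff_X_pow]

lemma cond_ann {R : Type*} [CommRing R] {a c n : R} (hc : c ∈ conductor ![a]) (hn : n * a ^ 2 = 0) :
    c * n * a = 0 := by
  have h1 := hc (C n * X 0 ^ 2) (by
    simp only [reesMap, map_mul, map_pow, aeval_C, aeval_X, Polynomial.algebraMap_eq, Matrix.cons_val_zero]
    rw [mul_pow, ← map_pow, ← mul_assoc, ← map_mul, hn]; simp)
  have h2 : linRel ![a] ≤ (Ideal.span {Polynomial.C a}).annihilator.comap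
      (aeval fun _ => Polynomial.X : MvPolynomial (Fin 1) R →ₐ[R] Polynomial R) := by
    refine Ideal.span_le.2 ?_
    rintro _ ⟨b, hb, rfl⟩
    rw [SetLike.mem_coe, Ideal.mem_comap, Ideal.span, Submodule.mem_annihilator_span_singleton]
    have : b 0 * a = 0 := by simpa using hb
    simp only [Finset.univ_unique, Finset.sum_singleton, map_mul, aeval_C, aeval_X,
      Polynomial.algebraMap_eq, smul_eq_mul, Fin.default_eq_zero]
    rw [mul_right_comm, ← map_mul, this]; simp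
  have h3 := h2 h1
  rw [Ideal.mem_comap, Ideal.span, Submodule.mem_annihilator_span_singleton] at h3
  have h4 := congrArg (fun q => Polynomial.eval 1 q) h3
  simpa using h4

theorem result : ∃ (R : Type) (_ : CommRing R) (_ : IsNoetherianRing R) (a f r : R),
    (∀ j : ℕ, (Ideal.span {a} ^ j).colon {f} = Ideal.span {a} ^ j) ∧
    r ∈ conductor ![a, f] ∧ r ∉ conductor ![a] ⊔ Ideal.span {f} := by
  refine ⟨R0, inferInstance, inferInstance, a0, 2, s0, fun j => ?_, mem_cond H1 H2, fun h => ?_⟩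
  · ext x
    rw [Submodule.mem_colon_singleton, Ideal.span_singleton_pow, Ideal.mem_span_singleton,
      Ideal.mem_span_singleton, smul_eq_mul, mul_comm]
    exact ⟨H1 j x, fun h => h.mul_left 2⟩
  · obtain ⟨c, hc, y, hy, hs⟩ := Submodule.mem_sup.1 h
    obtain ⟨x, rfl⟩ := Ideal.mem_span_singleton'.1 hy
    have h1 := cond_ann (n := s0) hc (by
      rw [a_pow, mul_def, zero_def]; simp [s0, Polynomial.coeff_X_pow])
    have h2 := cond_ann (n := e0) hc (by
      rw [a_pow, mul_def, zero_def]; simp [e0, Polynomial.coeff_X_pow])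
    rw [mul_comm x, two_mul_def, add_def] at hs
    have h3 := congrArg R0.u hs
    have h4 := congrArg R0.z h1
    have h5 := congrArg R0.z h2
    simp [mul_def, zero_def, s0, e0, a0] at h3 h4 h5
    omega

end Pool.Agent.Results.MP_72f8f6_ag.Counter
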